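import Pool.Agent.Y262.QE.Stm

/-!
# Project QE: the gradient in charts
-/

set_option autoImplicit false
set_option linter.unusedSectionVars false

open Set Filter Topology MeasureTheory
open scoped Real ContDiff ComplexConjugate

noncomputable section

namespace Pool.Agent.Y708.QE

open Pool.Agent.Y262.QE

/-! ### linear algebra -/

theorem inner_re (w v : ℂ) : inner ℝ w v = w.re * v.re + w.im * v.im := by
  rw [Complex.inner]
  simp [Complex.mul_re]
  ring

theorem inner_grd (A : ℂ →L[ℝ] ℂ) (P : ℂ →L[ℝ] ℝ) (v : ℂ) :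
    inner ℝ (grd A P) v = P (A.inverse v) := by
  have hv : v = v.re • (1 : ℂ) + v.im • Complex.I := by
    apply Complex.ext <;> simp
  conv_rhs => rw [hv]
  rw [map_add, map_add, map_smul, map_smul, map_smul, map_smul, inner_re]
  unfold grd
  simp only [smul_eq_mul]
  ring

theorem inv_apply {A : ℂ →L[ℝ] ℂ} (hA : A.det ≠ 0) (v : ℂ) : A (A.inverse v) = v := by
  have h := A.coe_toContinuousLinearEquivOfDetNeZero hA
  conv_lhs => rw [← h]
  rw [ContinuousLinearMap.inverse_equiv]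
  exact (A.toContinuousLinearEquivOfDetNeZero hA).apply_symm_apply v

theorem inv_apply' {A : ℂ →L[ℝ] ℂ} (hA : A.det ≠ 0) (v : ℂ) : A.inverse (A v) = v := by
  have h := A.coe_toContinuousLinearEquivOfDetNeZero hA
  conv_lhs => rw [← h]
  rw [ContinuousLinearMap.inverse_equiv]
  exact (A.toContinuousLinearEquivOfDetNeZero hA).symm_apply_apply v

/-- the gradients in two frames differ by an isometry -/
theorem grd_iso {A A' L : ℂ →L[ℝ] ℂ} (hA : A.det ≠ 0) (hA' : A'.det ≠ 0)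
    (h : ∀ v, ‖A' (L v)‖ = ‖A v‖) :
    ∃ B : ℂ ≃ₗᵢ[ℝ] ℂ, ∀ P : ℂ →L[ℝ] ℝ, grd A' P = B (grd A (P.comp L)) := by
  let B₀ : ℂ →ₗᵢ[ℝ] ℂ :=
    { toLinearMap := ((A'.comp L).comp A.inverse : ℂ →L[ℝ] ℂ)
      norm_map' := fun v => by
        show ‖A' (L (A.inverse v))‖ = ‖v‖
        rw [h, inv_apply hA] }
  have hB₀ : ∀ v, B₀ v = A' (L (A.inverse v)) := fun v => rfl
  refine ⟨B₀.toLinearIsometryEquiv rfl, fun P => ?_⟩
  apply ext_inner_right ℝ
  intro w
  obtain ⟨v, rfl⟩ := (B₀.toLinearIsometryEquiv rfl).surjective w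
  rw [LinearIsometryEquiv.inner_map_map, inner_grd, inner_grd,
    LinearIsometry.toLinearIsometryEquiv_apply, hB₀, inv_apply' hA']
  rfl

theorem grd_lin (A : ℂ →L[ℝ] ℂ) (P Q : ℂ →L[ℝ] ℝ) (α β : ℝ) :
    grd A (α • P + β • Q) = α • grd A P + β • grd A Q := by
  apply Complex.ext
  · simp [grd]
  · simp [grd]

theorem grd_cont {X : Type} [TopologicalSpace X] {s : Set X} {A : X → ℂ →L[ℝ] ℂ}
    {P : X → ℂ →L[ℝ] ℝ} (hA : ContinuousOn A s) (hd : ∀ x ∈ s, (A x).det ≠ 0)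
    (hP : ContinuousOn P s) : ContinuousOn (fun x => grd (A x) (P x)) s := by
  have hinv : ContinuousOn (fun x => (A x).inverse) s := by
    intro x hx
    have h1 := contDiffAt_map_inverse (𝕜 := ℝ) (n := 0)
      ((A x).toContinuousLinearEquivOfDetNeZero (hd x hx))
    rw [(A x).coe_toContinuousLinearEquivOfDetNeZero (hd x hx)] at h1
    exact h1.continuousAt.comp_continuousWithinAt (hA x hx)
  have h1 : ∀ v : ℂ, ContinuousOn (fun x => P x ((A x).inverse v)) s := fun v =>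
    hP.clm_apply (hinv.clm_apply continuousOn_const)
  have e : (fun x => grd (A x) (P x)) = fun x =>
      ((P x ((A x).inverse 1) : ℝ) : ℂ) + ((P x ((A x).inverse Complex.I) : ℝ) : ℂ) * Complex.I := by
    funext x
    apply Complex.ext <;> simp [grd]
  rw [e]
  exact (Complex.continuous_ofReal.comp_continuousOn (h1 1)).add
    ((Complex.continuous_ofReal.comp_continuousOn (h1 Complex.I)).mul continuousOn_const)

section

variable {M : Type} [MetricSpace M] [CompactSpace M] [MeasurableSpace M] [BorelSpace M]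
  {μ : Measure M} {D : Data M}

theorem mem_T {i : Fin D.N} {x : M} (hx : x ∈ D.U i) : D.φ i x ∈ D.T i := ⟨x, hx, rfl⟩

theorem ev_left (hD : D.IsSurf μ) {i : Fin D.N} {x : M} (hx : x ∈ D.U i) {O : Set M}
    (hO : IsOpen O) (hxO : x ∈ O) : ∀ᶠ z in 𝓝 (D.φ i x), D.ψ i z ∈ O := by
  have h1 : ContinuousAt (D.ψ i) (D.φ i x) :=
    (hD.contψ i).continuousAt ((hD.openT i).mem_nhds (mem_T hx))
  have h2 : O ∈ 𝓝 (D.ψ i (D.φ i x)) := by
    rw [hD.left i x hx]
    exact hO.mem_nhds hxO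
  exact h1 h2

theorem diff_at (hD : D.IsSurf μ) {F : M → ℝ} (hF : D.C1 F) {i : Fin D.N} {x : M}
    (hx : x ∈ D.U i) : DifferentiableAt ℝ (fun z => F (D.ψ i z)) (D.φ i x) :=
  ((hF i).contDiffAt ((hD.openT i).mem_nhds (mem_T hx))).differentiableAt one_ne_zero

/-- the chain rule -/
theorem dc_comp (hD : D.IsSurf μ) {F : M → ℝ} (hF : D.C1 F) {i j : Fin D.N} {x : M}
    (hi : x ∈ D.U i) (hj : x ∈ D.U j) :
    D.dc i F x = (D.dc j F x).comp (fderiv ℝ (fun z => D.φ j (D.ψ i z)) (D.φ i x)) := by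
  have h1 : (fun z => F (D.ψ i z)) =ᶠ[𝓝 (D.φ i x)]
      (fun z => F (D.ψ j z)) ∘ fun z => D.φ j (D.ψ i z) := by
    filter_upwards [ev_left hD hi (hD.openU j) hj] with z hz
    show F (D.ψ i z) = F (D.ψ j (D.φ j (D.ψ i z)))
    rw [hD.left j _ hz]
  have h2 : D.φ j (D.ψ i (D.φ i x)) = D.φ j x := by rw [hD.left i x hi]
  have h3 : DifferentiableAt ℝ (fun z => D.φ j (D.ψ i z)) (D.φ i x) :=
    (hD.tr i j x hi hj).1.differentiableAt one_ne_zero
  have h4 : DifferentiableAt ℝ (fun z => F (D.ψ j z))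
      ((fun z => D.φ j (D.ψ i z)) (D.φ i x)) := by
    show DifferentiableAt ℝ (fun z => F (D.ψ j z)) (D.φ j (D.ψ i (D.φ i x)))
    rw [h2]
    exact diff_at hD hF hj
  have h5 := fderiv_comp (g := fun z => F (D.ψ j z)) (f := fun z => D.φ j (D.ψ i z))
    (D.φ i x) h4 h3
  unfold Data.dc
  rw [h1.fderiv_eq, h5, h2]

theorem inner_gc (hD : D.IsSurf μ) {F G : M → ℝ} (hF : D.C1 F) (hG : D.C1 G) {i j : Fin D.N}
    {x : M} (hi : x ∈ D.U i) (hj : x ∈ D.U j) :
    inner ℝ (D.gc i F x) (D.gc i G x) = inner ℝ (D.gc j F x) (D.gc j G x) := by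
  obtain ⟨B, hB⟩ := grd_iso (hD.det i _ (mem_T hi)) (hD.det j _ (mem_T hj))
    (hD.tr i j x hi hj).2
  unfold Data.gc
  rw [hB, hB, ← dc_comp hD hF hi hj, ← dc_comp hD hG hi hj, LinearIsometryEquiv.inner_map_map]

omit [MetricSpace M] [CompactSpace M] [MeasurableSpace M] [BorelSpace M] in
theorem pc_disj {i j : Fin D.N} {x : M} (hi : x ∈ D.pc i) (hj : x ∈ D.pc j) : i = j := by
  rcases lt_trichotomy i j with h | h | h
  · exact absurd (Set.mem_iUnion.2 ⟨⟨i, h⟩, hi.1⟩) hj.2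
  · exact h
  · exact absurd (Set.mem_iUnion.2 ⟨⟨j, h⟩, hj.1⟩) hi.2

theorem pc_ex (hD : D.IsSurf μ) (x : M) : ∃ i, x ∈ D.pc i := by
  obtain ⟨i, hi, hmin⟩ := WellFounded.has_min (wellFounded_lt (α := Fin D.N))
    {i | x ∈ D.U i} (hD.cover x)
  refine ⟨i, hi, fun h => ?_⟩
  obtain ⟨k, hk⟩ := Set.mem_iUnion.1 h
  exact hmin k.1 hk k.2

theorem gr_eq {F : M → ℝ} {i : Fin D.N} {x : M} (hi : x ∈ D.pc i) :
    D.gr F x = D.gc i F x := by
  unfold Data.gr
  rw [Finset.sum_eq_single i]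
  · exact Set.indicator_of_mem hi _
  · intro j _ hj
    exact Set.indicator_of_notMem (fun h => hj (pc_disj h hi)) _
  · intro h
    exact absurd (Finset.mem_univ i) h

theorem inner_gr (hD : D.IsSurf μ) {F G : M → ℝ} (hF : D.C1 F) (hG : D.C1 G) {i : Fin D.N}
    {x : M} (hi : x ∈ D.U i) :
    inner ℝ (D.gr F x) (D.gr G x) = inner ℝ (D.gc i F x) (D.gc i G x) := by
  obtain ⟨j, hj⟩ := pc_ex hD x
  rw [gr_eq hj, gr_eq hj]
  exact inner_gc hD hF hG hj.1 hi

theorem gc_cont (hD : D.IsSurf μ) {F : M → ℝ} (hF : D.C1 F) (i : Fin D.N) :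
    ContinuousOn (D.gc i F) (D.U i) := by
  have hm : MapsTo (D.φ i) (D.U i) (D.T i) := fun x hx => mem_T hx
  unfold Data.gc Data.dc
  refine grd_cont ((hD.contA i).comp (hD.contφ i) hm) (fun x hx => hD.det i _ (hm hx)) ?_
  have h1 : ContinuousOn (fderiv ℝ fun z => F (D.ψ i z)) (D.T i) :=
    (hF i).continuousOn_fderiv_of_isOpen (hD.openT i) le_rfl
  exact h1.comp (hD.contφ i) hm

theorem C1_cont (hD : D.IsSurf μ) {F : M → ℝ} (hF : D.C1 F) : Continuous F := by
  rw [continuous_iff_continuousAt]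
  intro x
  obtain ⟨i, hi⟩ := hD.cover x
  have hm : MapsTo (D.φ i) (D.U i) (D.T i) := fun x hx => mem_T hx
  have h1 : ContinuousOn F (D.U i) := by
    refine ((hF i).continuousOn.comp (hD.contφ i) hm).congr fun y hy => ?_
    show F y = F (D.ψ i (D.φ i y))
    rw [hD.left i y hy]
  exact h1.continuousAt ((hD.openU i).mem_nhds hi)

theorem pc_meas (hD : D.IsSurf μ) (i : Fin D.N) : MeasurableSet (D.pc i) := by
  unfold Data.pc
  exact (hD.openU i).measurableSet.diff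
    (MeasurableSet.iUnion fun k => (hD.openU k.1).measurableSet)

theorem gr_meas (hD : D.IsSurf μ) {F : M → ℝ} (hF : D.C1 F) : Measurable (D.gr F) := by
  classical
  unfold Data.gr
  refine Finset.measurable_sum _ fun i _ => ?_
  rw [← Set.piecewise_eq_indicator]
  exact ContinuousOn.measurable_piecewise
    ((gc_cont hD hF i).mono fun x hx => hx.1) continuousOn_const (pc_meas hD i)

theorem norm_gr (hD : D.IsSurf μ) {F : M → ℝ} (hF : D.C1 F) {i : Fin D.N} {x : M}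
    (hi : x ∈ D.U i) : ‖D.gr F x‖ = ‖D.gc i F x‖ := by
  have h := inner_gr hD hF hF hi
  rw [real_inner_self_eq_norm_sq, real_inner_self_eq_norm_sq] at h
  exact (sq_eq_sq₀ (norm_nonneg _) (norm_nonneg _)).1 h

theorem gr_bdd (hD : D.IsSurf μ) {F : M → ℝ} (hF : D.C1 F) : ∃ C : ℝ, ∀ x, ‖D.gr F x‖ ≤ C := by
  have h1 : Continuous fun x => ‖D.gr F x‖ := by
    rw [continuous_iff_continuousAt]
    intro x
    obtain ⟨i, hi⟩ := hD.cover x
    have h2 : ContinuousOn (fun x => ‖D.gr F x‖) (D.U i) :=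
      (gc_cont hD hF i).norm.congr fun y hy => norm_gr hD hF hy
    exact h2.continuousAt ((hD.openU i).mem_nhds hi)
  obtain ⟨C, hC⟩ := (isCompact_range h1).bddAbove
  exact ⟨C, fun x => hC (Set.mem_range_self x)⟩

theorem gradient_lin (hD : D.IsSurf μ) {F G : M → ℝ} (hF : D.C1 F) (hG : D.C1 G) (α β : ℝ) :
    D.C1 (fun x => α * F x + β * G x) ∧
      ∀ x, D.gr (fun x => α * F x + β * G x) x = α • D.gr F x + β • D.gr G x := by
  refine ⟨fun i => (contDiffOn_const.mul (hF i)).add (contDiffOn_const.mul (hG i)), fun x => ?_⟩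
  obtain ⟨i, hi⟩ := pc_ex hD x
  rw [gr_eq hi, gr_eq hi, gr_eq hi]
  unfold Data.gc
  rw [← grd_lin]
  congr 1
  unfold Data.dc
  have h1 := diff_at hD hF hi.1
  have h2 := diff_at hD hG hi.1
  rw [fderiv_fun_add (h1.const_mul α) (h2.const_mul β), fderiv_const_mul h1, fderiv_const_mul h2]

end

theorem gradient : StGr := by
  intro M _ _ _ _ μ D hD
  exact ⟨fun F hF => ⟨C1_cont hD hF, gr_meas hD hF, gr_bdd hD hF⟩,
    fun F G hF hG i x hx => inner_gr hD hF hG hx,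
    fun F G hF hG α β => gradient_lin hD hF hG α β⟩

end Pool.Agent.Y708.QE
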